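import Pool.Agent.Helper70.Isg.Goals2

/-!
# MP_600500_pr: the packet CONS (consistency of the specification)
-/

open Filter Topology

noncomputable section

namespace Pool.Agent.Helper27.Isg

open Pool.Agent.Helper70.Isg

variable {d : ℕ}

/-- The energy as a sum over all pairs in a large finite set. -/
theorem cons_enrg (hsym : ∀ u v : Site d, v ∈ nbrs u ↔ u ∈ nbrs v) (Λ B : Finset (Site d))
    (hΛ : Λ ⊆ B) (hn : ∀ u ∈ Λ, nbrs u ⊆ B) (σ : Cfg d) :
    enrg Λ σ = ∑ u ∈ B, ∑ v ∈ B, if v ∈ nbrs u then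
      (if u ∈ Λ ∨ v ∈ Λ then (1 / 2 : ℝ) * (sg (σ u) * sg (σ v)) else 0) else 0 := by
  -- the two parts
  have h1 : ∀ u ∈ B, ∀ v ∈ B, (if v ∈ nbrs u then
      (if u ∈ Λ ∨ v ∈ Λ then (1 / 2 : ℝ) * (sg (σ u) * sg (σ v)) else 0) else 0) =
      (if u ∈ Λ then (if v ∈ nbrs u then (1 / 2 : ℝ) * (sg (σ u) * sg (σ v)) else 0) else 0) +
      (if v ∈ Λ then (if u ∈ nbrs v then (if u ∈ Λ then 0 else
        (1 / 2 : ℝ) * (sg (σ v) * sg (σ u))) else 0) else 0) := by
    intro u _ v _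
    by_cases huv : v ∈ nbrs u
    · have hvu := (hsym u v).1 huv
      by_cases hu : u ∈ Λ <;> by_cases hv : v ∈ Λ <;> simp [huv, hvu, hu, hv, mul_comm]
    · have hvu : u ∉ nbrs v := fun h => huv ((hsym u v).2 h)
      simp [huv, hvu]
  rw [Finset.sum_congr rfl fun u hu => Finset.sum_congr rfl (h1 u hu)]
  simp only [Finset.sum_add_distrib]
  rw [Finset.sum_comm (s := B) (t := B) (f := fun u v => (if v ∈ Λ then (if u ∈ nbrs v then
    (if u ∈ Λ then 0 else (1 / 2 : ℝ) * (sg (σ v) * sg (σ u))) else 0) else 0)),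
    ← Finset.sum_add_distrib]
  have h2 : ∀ u ∈ B, (∑ v ∈ B, (if u ∈ Λ then (if v ∈ nbrs u then
        (1 / 2 : ℝ) * (sg (σ u) * sg (σ v)) else 0) else 0)) +
      (∑ v ∈ B, (if u ∈ Λ then (if v ∈ nbrs u then (if v ∈ Λ then 0 else
        (1 / 2 : ℝ) * (sg (σ u) * sg (σ v))) else 0) else 0)) =
      if u ∈ Λ then ∑ v ∈ nbrs u, (if v ∈ Λ then 1 / 2 else 1) * (sg (σ u) * sg (σ v)) else 0 := by
    intro u _
    by_cases hu : u ∈ Λ
    · simp only [hu, if_true]
      rw [← Finset.sum_add_distrib]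
      have h3 : ∀ v ∈ B, ((if v ∈ nbrs u then (1 / 2 : ℝ) * (sg (σ u) * sg (σ v)) else 0) +
          (if v ∈ nbrs u then (if v ∈ Λ then 0 else (1 / 2 : ℝ) * (sg (σ u) * sg (σ v))) else 0)) =
          if v ∈ nbrs u then (if v ∈ Λ then 1 / 2 else 1) * (sg (σ u) * sg (σ v)) else 0 := by
        intro v _
        by_cases h4 : v ∈ nbrs u
        · by_cases h5 : v ∈ Λ
          · simp [h4, h5]
          · simp only [h4, h5, if_true, if_false]
            ring
        · simp [h4]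
      rw [Finset.sum_congr rfl h3, ← Finset.sum_filter]
      apply Finset.sum_congr _ (fun _ _ => rfl)
      ext v
      rw [Finset.mem_filter]
      exact ⟨fun h => h.2, fun h => ⟨hn u hu h, h⟩⟩
    · simp [hu]
  rw [Finset.sum_congr rfl h2, ← Finset.sum_filter]
  unfold enrg
  apply Finset.sum_congr _ (fun _ _ => rfl)
  ext u
  rw [Finset.mem_filter]
  exact ⟨fun h => ⟨hΛ h, h⟩, fun h => h.2⟩

/-- The difference of the energies depends only on the spins outside the smaller set. -/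
theorem cons_diff (hsym : ∀ u v : Site d, v ∈ nbrs u ↔ u ∈ nbrs v) (Δ Λ : Finset (Site d))
    (hΔ : Δ ⊆ Λ) (σ σ' : Cfg d) (h : ∀ v ∉ Δ, σ v = σ' v) :
    enrg Λ σ - enrg Δ σ = enrg Λ σ' - enrg Δ σ' := by
  set B : Finset (Site d) := Λ ∪ Λ.biUnion nbrs with hB
  have hΛB : Λ ⊆ B := Finset.subset_union_left
  have hnB : ∀ u ∈ Λ, nbrs u ⊆ B := fun u hu =>
    (Finset.subset_biUnion_of_mem nbrs hu).trans Finset.subset_union_right
  rw [cons_enrg hsym Λ B hΛB hnB, cons_enrg hsym Δ B (hΔ.trans hΛB) (fun u hu => hnB u (hΔ hu)),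
    cons_enrg hsym Λ B hΛB hnB, cons_enrg hsym Δ B (hΔ.trans hΛB) (fun u hu => hnB u (hΔ hu)),
    ← Finset.sum_sub_distrib, ← Finset.sum_sub_distrib]
  apply Finset.sum_congr rfl
  intro u _
  rw [← Finset.sum_sub_distrib, ← Finset.sum_sub_distrib]
  apply Finset.sum_congr rfl
  intro v _
  by_cases huv : v ∈ nbrs u
  · simp only [huv, if_true]
    by_cases hu : u ∈ Δ
    · have huΛ := hΔ hu
      simp [hu, huΛ]
    · by_cases hv : v ∈ Δ
      · have hvΛ := hΔ hv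
        simp [hv, hvΛ]
      · rw [h u hu, h v hv]
  · simp [huv]

/-- Replace the spins in `Δ`. -/
def consMv (Δ Λ : Finset (Site d)) (τ : Λ → Bool) (τ' : Δ → Bool) : Λ → Bool :=
  fun v => if h : (v : Site d) ∈ Δ then τ' ⟨v, h⟩ else τ v

/-- Restriction to `Δ`. -/
def consRs (Δ Λ : Finset (Site d)) (hΔ : Δ ⊆ Λ) (τ : Λ → Bool) : Δ → Bool :=
  fun v => τ ⟨v, hΔ v.2⟩

theorem cons_invol (Δ Λ : Finset (Site d)) (hΔ : Δ ⊆ Λ) :
    Function.Involutive (fun p : (Λ → Bool) × (Δ → Bool) =>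
      (consMv Δ Λ p.1 p.2, consRs Δ Λ hΔ p.1)) := by
  rintro ⟨τ, τ'⟩
  simp only [Prod.mk.injEq]
  constructor
  · funext v
    unfold consMv consRs
    by_cases h : (v : Site d) ∈ Δ
    · rw [dif_pos h]
    · rw [dif_neg h, dif_neg h]
  · funext v
    unfold consMv consRs
    exact dif_pos v.2

theorem cons_glue (Δ Λ : Finset (Site d)) (hΔ : Δ ⊆ Λ) (τ : Λ → Bool) (τ' : Δ → Bool)
    (η : Cfg d) : glue Δ τ' (glue Λ τ η) = glue Λ (consMv Δ Λ τ τ') η := by
  funext v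
  unfold glue consMv
  by_cases h : v ∈ Δ
  · rw [dif_pos h, dif_pos (hΔ h), dif_pos h]
  · rw [dif_neg h]
    by_cases h' : v ∈ Λ
    · rw [dif_pos h', dif_pos h', dif_neg h]
    · rw [dif_neg h', dif_neg h']

theorem cons_glue_glue (Δ : Finset (Site d)) (τ τ' : Δ → Bool) (η : Cfg d) :
    glue Δ τ (glue Δ τ' η) = glue Δ τ η := by
  funext v
  unfold glue
  by_cases h : v ∈ Δ
  · rw [dif_pos h, dif_pos h]
  · rw [dif_neg h, dif_neg h, dif_neg h]

theorem cons_glue_out (Δ : Finset (Site d)) (τ : Δ → Bool) (η : Cfg d) {v : Site d} (hv : v ∉ Δ) :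
    glue Δ τ η v = η v := by
  unfold glue
  rw [dif_neg hv]

theorem cons_pf (β : ℝ) (Δ : Finset (Site d)) (τ : Δ → Bool) (η : Cfg d) :
    pf β Δ (glue Δ τ η) = pf β Δ η := by
  unfold pf
  simp only [cons_glue_glue]

theorem pf_CONS (hB : S_BASIC) : S_CONS := by
  intro d β Δ Λ η f hΔ
  obtain ⟨-, hsym, -, -, -, -, -, hpf, -⟩ := hB d
  have key : ∑ τ : Λ → Bool, f (glue Λ τ η) * wt β Λ (glue Λ τ η) =
      ∑ τ : Λ → Bool, ev β Δ (glue Λ τ η) f * wt β Λ (glue Λ τ η) := by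
    -- the function of pairs
    set F : (Λ → Bool) × (Δ → Bool) → ℝ := fun p =>
      f (glue Λ p.1 η) * wt β Λ (glue Λ p.1 η) * (wt β Δ (glue Δ p.2 (glue Λ p.1 η)) /
        pf β Δ (glue Λ p.1 η)) with hF
    have hL : ∑ τ : Λ → Bool, f (glue Λ τ η) * wt β Λ (glue Λ τ η) = ∑ p, F p := by
      rw [Fintype.sum_prod_type]
      apply Finset.sum_congr rfl
      intro τ _
      simp only [hF]
      rw [← Finset.mul_sum, ← Finset.sum_div]
      have h1 : ∑ τ' : Δ → Bool, wt β Δ (glue Δ τ' (glue Λ τ η)) = pf β Δ (glue Λ τ η) := rfl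
      rw [h1, div_self (hpf β Δ (glue Λ τ η)).ne', mul_one]
    have hR : ∑ τ : Λ → Bool, ev β Δ (glue Λ τ η) f * wt β Λ (glue Λ τ η) =
        ∑ p, F ((Function.Involutive.toPerm _ (cons_invol Δ Λ hΔ)) p) := by
      rw [Fintype.sum_prod_type]
      apply Finset.sum_congr rfl
      intro τ _
      unfold ev
      rw [div_mul_eq_mul_div, Finset.sum_mul, Finset.sum_div]
      apply Finset.sum_congr rfl
      intro τ' _
      have h0 : (Function.Involutive.toPerm _ (cons_invol Δ Λ hΔ)) (τ, τ') = (consMv Δ Λ τ τ', consRs Δ Λ hΔ τ) := rfl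
      rw [h0]
      simp only [hF]
      rw [← cons_glue Δ Λ hΔ τ τ' η, cons_glue_glue, cons_pf]
      have h1 : glue Δ (consRs Δ Λ hΔ τ) (glue Λ τ η) = glue Λ τ η := by
        rw [cons_glue Δ Λ hΔ]
        congr 1
        funext v
        unfold consMv consRs
        by_cases h : (v : Site d) ∈ Δ
        · rw [dif_pos h]
        · rw [dif_neg h]
      rw [h1]
      have h2 : wt β Δ (glue Δ τ' (glue Λ τ η)) * wt β Λ (glue Λ τ η) =
          wt β Λ (glue Δ τ' (glue Λ τ η)) * wt β Δ (glue Λ τ η) := by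
        unfold wt
        rw [← Real.exp_add, ← Real.exp_add]
        congr 1
        have h3 := cons_diff hsym Δ Λ hΔ (glue Δ τ' (glue Λ τ η)) (glue Λ τ η)
          (fun v hv => cons_glue_out Δ τ' _ hv)
        linear_combination (-β) * h3
      rw [mul_assoc, h2]
      ring
    rw [hL, hR]
    exact (Equiv.sum_comp (Function.Involutive.toPerm _ (cons_invol Δ Λ hΔ)) F).symm
  unfold ev at key ⊢
  rw [key]

end Pool.Agent.Helper27.Isg
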