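import Pool.Agent.Helper70.Isg.Goals2

/-!
# MP_600500_pr: the packet FLIP
-/

open Filter Topology

noncomputable section

namespace Pool.Agent.Helper27.Isg

open Pool.Agent.Helper70.Isg

variable {d : ℕ}

theorem flip_sg (b : Bool) : sg (!b) = -sg b := by
  cases b <;> simp [sg]

theorem flip_wt (β : ℝ) (Λ : Finset (Site d)) (σ : Cfg d) :
    wt β Λ (fun v => !(σ v)) = wt β Λ σ := by
  unfold wt enrg
  simp only [flip_sg, neg_mul_neg]

/-- The spin flip in `Λ`. -/
def flipEquiv (Λ : Finset (Site d)) : (Λ → Bool) ≃ (Λ → Bool) where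
  toFun τ := fun v => !(τ v)
  invFun τ := fun v => !(τ v)
  left_inv := by intro τ; funext v; simp
  right_inv := by intro τ; funext v; simp

theorem flip_glue (Λ : Finset (Site d)) (τ : Λ → Bool) (η : Cfg d) :
    glue Λ (flipEquiv Λ τ) (fun v => !(η v)) = fun v => !(glue Λ τ η v) := by
  funext v
  unfold glue flipEquiv
  by_cases h : v ∈ Λ
  · rw [dif_pos h, dif_pos h]
    rfl
  · rw [dif_neg h, dif_neg h]

theorem pf_FLIP : S_FLIP := by
  intro d β Λ η f
  unfold ev pf
  rw [← Equiv.sum_comp (flipEquiv Λ) (fun τ : Λ → Bool =>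
      f (glue Λ τ (fun v => !(η v))) * wt β Λ (glue Λ τ (fun v => !(η v)))),
    ← Equiv.sum_comp (flipEquiv Λ) (fun τ : Λ → Bool => wt β Λ (glue Λ τ (fun v => !(η v))))]
  simp only [flip_glue, flip_wt]

end Pool.Agent.Helper27.Isg
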