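import Pool.Agent.Helper70.Isg.Goals2

/-!
# MP_600500_pr: the packet KEY
-/

open Filter Topology

noncomputable section

namespace Pool.Agent.Helper27.Isg

open Pool.Agent.Helper70.Isg

/-- The limit of the basic inequality for a large field. -/
theorem key_lim {K1 K2 P Q t : ℝ} (hK1 : 0 ≤ K1) (hP : 0 ≤ P)
    (h : ∀ c : ℝ, K1 * (P + Real.cosh (2 * (c + t))) ≤ K2 * (Q + Real.cosh (2 * (c - t)))) :
    K1 * Real.exp (4 * t) ≤ K2 := by
  have h1 : ∀ c : ℝ, K1 * Real.exp (2 * t) ≤
      K2 * (2 * Q * Real.exp (-(2 * c)) + Real.exp (-(2 * t)) + Real.exp (-(4 * c)) * Real.exp (2 * t)) := by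
    intro c
    have h2 := h c
    have e0 : Real.exp (2 * (c + t)) ≤ 2 * Real.cosh (2 * (c + t)) := by
      rw [Real.cosh_eq]
      have := Real.exp_pos (-(2 * (c + t)))
      linarith
    have e1 : 2 * Real.cosh (2 * (c - t)) = Real.exp (2 * (c - t)) + Real.exp (-(2 * (c - t))) := by
      rw [Real.cosh_eq]
      ring
    have h3 : K1 * Real.exp (2 * (c + t)) ≤
        K2 * (2 * Q + Real.exp (2 * (c - t)) + Real.exp (-(2 * (c - t)))) := by
      have h4 : K1 * Real.exp (2 * (c + t)) ≤ K1 * (2 * (P + Real.cosh (2 * (c + t)))) := by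
        apply mul_le_mul_of_nonneg_left _ hK1
        linarith
      have h5 : K2 * (2 * Q + Real.exp (2 * (c - t)) + Real.exp (-(2 * (c - t)))) =
          2 * (K2 * (Q + Real.cosh (2 * (c - t)))) := by
        have : K2 * (2 * Q + Real.exp (2 * (c - t)) + Real.exp (-(2 * (c - t)))) =
          K2 * (2 * Q + 2 * Real.cosh (2 * (c - t))) := by rw [e1]; ring
        rw [this]
        ring
      rw [h5]
      linarith
    have h6 := mul_le_mul_of_nonneg_right h3 (Real.exp_pos (-(2 * c))).le
    have e2 : K1 * Real.exp (2 * (c + t)) * Real.exp (-(2 * c)) = K1 * Real.exp (2 * t) := by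
      rw [mul_assoc, ← Real.exp_add]
      congr 2
      ring
    have e3 : K2 * (2 * Q + Real.exp (2 * (c - t)) + Real.exp (-(2 * (c - t)))) *
        Real.exp (-(2 * c)) = K2 * (2 * Q * Real.exp (-(2 * c)) + Real.exp (-(2 * t)) +
          Real.exp (-(4 * c)) * Real.exp (2 * t)) := by
      have e4 : Real.exp (2 * (c - t)) * Real.exp (-(2 * c)) = Real.exp (-(2 * t)) := by
        rw [← Real.exp_add]
        congr 1
        ring
      have e5 : Real.exp (-(2 * (c - t))) * Real.exp (-(2 * c)) =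
          Real.exp (-(4 * c)) * Real.exp (2 * t) := by
        rw [← Real.exp_add, ← Real.exp_add]
        congr 1
        ring
      rw [← e4, ← e5]
      ring
    rw [e2, e3] at h6
    exact h6
  have t1 : Tendsto (fun c : ℝ => Real.exp (-(2 * c))) atTop (𝓝 0) := by
    apply Real.tendsto_exp_neg_atTop_nhds_zero.comp
    exact tendsto_id.const_mul_atTop (by norm_num)
  have t2 : Tendsto (fun c : ℝ => Real.exp (-(4 * c))) atTop (𝓝 0) := by
    apply Real.tendsto_exp_neg_atTop_nhds_zero.comp
    exact tendsto_id.const_mul_atTop (by norm_num)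
  have t3 : Tendsto (fun c : ℝ => K2 * (2 * Q * Real.exp (-(2 * c)) + Real.exp (-(2 * t)) +
      Real.exp (-(4 * c)) * Real.exp (2 * t))) atTop
      (𝓝 (K2 * (2 * Q * 0 + Real.exp (-(2 * t)) + 0 * Real.exp (2 * t)))) :=
    (((t1.const_mul (2 * Q)).add_const _).add (t2.mul_const _)).const_mul K2
  have h7 : K1 * Real.exp (2 * t) ≤
      K2 * (2 * Q * 0 + Real.exp (-(2 * t)) + 0 * Real.exp (2 * t)) :=
    ge_of_tendsto t3 (Eventually.of_forall h1)
  have h8 : K1 * Real.exp (2 * t) ≤ K2 * Real.exp (-(2 * t)) := by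
    simpa using h7
  have h9 := mul_le_mul_of_nonneg_right h8 (Real.exp_pos (2 * t)).le
  have e6 : K1 * Real.exp (2 * t) * Real.exp (2 * t) = K1 * Real.exp (4 * t) := by
    rw [mul_assoc, ← Real.exp_add]
    congr 2
    ring
  have e7 : K2 * Real.exp (-(2 * t)) * Real.exp (2 * t) = K2 := by
    rw [mul_assoc, ← Real.exp_add, neg_add_cancel, Real.exp_zero, mul_one]
  rwa [e6, e7] at h9

theorem pf_KEY (h0 : S_KEY0) : S_KEY := by
  intro A B C A' B' C' T J hB hC hTB hTC h1 h2 h3 hkey hJ c
  have hcosh : ∀ z : ℝ, 0 < Real.cosh z := Real.cosh_pos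
  -- the limit
  have hlim : Real.exp (4 * A') * Real.cosh (B - C) ^ 2 * Real.exp (4 * |T|) ≤
      Real.exp (4 * A) * Real.cosh (B + C) ^ 2 := by
    refine key_lim (P := Real.cosh (2 * (B' + C'))) (Q := Real.cosh (2 * (B' - C')))
      (by positivity) (hcosh _).le ?_
    intro c
    rcases le_total 0 T with hT | hT
    · rw [abs_of_nonneg hT]
      have := hkey c
      unfold keyI at this
      linarith
    · rw [abs_of_nonpos hT]
      have := hkey (-c)
      unfold keyI at this
      have e1 : Real.cosh (2 * (-c + T)) = Real.cosh (2 * (c + -T)) := by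
        rw [← Real.cosh_neg]
        congr 1
        ring
      have e2 : Real.cosh (2 * (-c - T)) = Real.cosh (2 * (c - -T)) := by
        rw [← Real.cosh_neg]
        congr 1
        ring
      rw [e1, e2] at this
      linarith
  -- the perturbed inequalities
  have hε : ∀ ε : ℝ, 0 < ε → keyI (A + ε) (B + J) C A' (B' + J) C' T c := by
    intro ε hε
    have hexp : Real.exp (4 * A) < Real.exp (4 * (A + ε)) := by
      apply Real.exp_lt_exp.2
      linarith
    refine h0 (A + ε) B C A' B' C' T J hB hC hTB hTC (by linarith) (by linarith) h3 ?_ ?_ hJ c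
    · have h4 : Real.exp (4 * A) * Real.cosh (B + C) ^ 2 <
          Real.exp (4 * (A + ε)) * Real.cosh (B + C) ^ 2 :=
        mul_lt_mul_of_pos_right hexp (pow_pos (hcosh _) 2)
      have h5 : Real.exp (4 * A') * Real.exp (4 * |T|) * Real.cosh (B - C) ^ 2 =
          Real.exp (4 * A') * Real.cosh (B - C) ^ 2 * Real.exp (4 * |T|) := by ring
      rw [h5]
      exact lt_of_le_of_lt hlim h4
    · intro c'
      have h4 := hkey c'
      unfold keyI at h4 ⊢
      refine h4.trans ?_
      have h5 : 0 ≤ Real.cosh (2 * (B' - C')) + Real.cosh (2 * (c' - T)) :=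
        add_nonneg (hcosh _).le (hcosh _).le
      exact mul_le_mul_of_nonneg_right (mul_le_mul_of_nonneg_right hexp.le h5)
        (pow_pos (hcosh _) 2).le
  unfold keyI at hε ⊢
  have hcont : Continuous (fun ε : ℝ => Real.exp (4 * (A + ε)) *
      (Real.cosh (2 * (B' + J - C')) + Real.cosh (2 * (c - T))) * Real.cosh (B + J + C) ^ 2) := by
    fun_prop
  have ht : Tendsto (fun ε : ℝ => Real.exp (4 * (A + ε)) *
      (Real.cosh (2 * (B' + J - C')) + Real.cosh (2 * (c - T))) * Real.cosh (B + J + C) ^ 2)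
      (𝓝[>] 0) (𝓝 (Real.exp (4 * (A + 0)) *
      (Real.cosh (2 * (B' + J - C')) + Real.cosh (2 * (c - T))) * Real.cosh (B + J + C) ^ 2)) :=
    (hcont.tendsto 0).mono_left nhdsWithin_le_nhds
  rw [add_zero] at ht
  refine ge_of_tendsto ht ?_
  filter_upwards [self_mem_nhdsWithin] with ε hε'
  exact hε ε hε'

end Pool.Agent.Helper27.Isg
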