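import Pool.Agent.Helper70.Isg.Goals2

/-!
# MP_600500_pr: the packet LEAF
-/

open Filter Topology

noncomputable section

namespace Pool.Agent.Helper27.Isg

open Pool.Agent.Helper70.Isg

theorem leaf_sg_not (b : Bool) : sg (!b) = -sg b := by
  cases b <;> simp [sg]

theorem leaf_exp (K : ℝ) (b : Bool) :
    Real.exp (K * sg b) = Real.cosh K + sg b * Real.sinh K := by
  cases b
  · simp only [sg, Bool.false_eq_true, if_false]
    rw [mul_neg_one, Real.cosh_eq, Real.sinh_eq]
    ring
  · simp only [sg, if_true]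
    rw [mul_one, Real.cosh_eq, Real.sinh_eq]
    ring

/-- The global spin flip. -/
def leafFlip (V : Type) : (V → Bool) ≃ (V → Bool) where
  toFun σ := fun v => !(σ v)
  invFun σ := fun v => !(σ v)
  left_inv := by intro σ; funext v; simp
  right_inv := by intro σ; funext v; simp

section
variable {V : Type} [Fintype V] [DecidableEq V]

theorem leaf_gE_flip (J : V → V → ℝ) (σ : V → Bool) : gE J 0 (leafFlip V σ) = gE J 0 σ := by
  unfold gE leafFlip
  simp only [Equiv.coe_fn_mk, leaf_sg_not, Pi.zero_apply, zero_mul, Finset.sum_const_zero,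
    neg_mul_neg]

theorem leaf_sum_zero (J : V → V → ℝ) (y : V) :
    ∑ σ : V → Bool, sg (σ y) * Real.exp (gE J 0 σ) = 0 := by
  have h := Equiv.sum_comp (leafFlip V) (fun σ : V → Bool => sg (σ y) * Real.exp (gE J 0 σ))
  have h2 : ∑ σ : V → Bool, sg ((leafFlip V σ) y) * Real.exp (gE J 0 (leafFlip V σ)) =
      -∑ σ : V → Bool, sg (σ y) * Real.exp (gE J 0 σ) := by
    rw [← Finset.sum_neg_distrib]
    apply Finset.sum_congr rfl
    intro σ _
    rw [leaf_gE_flip]
    have : (leafFlip V σ) y = !(σ y) := rfl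
    rw [this, leaf_sg_not]
    ring
  rw [h2] at h
  linarith

theorem leaf_gE_single (J : V → V → ℝ) (u : V) (K : ℝ) (σ : V → Bool) :
    gE J (Pi.single u K) σ = gE J 0 σ + K * sg (σ u) := by
  unfold gE
  have h1 : ∑ v, (Pi.single u K : V → ℝ) v * sg (σ v) = K * sg (σ u) := by
    rw [Finset.sum_eq_single u]
    · rw [Pi.single_eq_same]
    · intro v _ hv
      rw [Pi.single_eq_of_ne hv, zero_mul]
    · simp
  rw [h1]
  simp

theorem leaf_gav (J : V → V → ℝ) (u y : V) (K : ℝ) :
    gav J (Pi.single u K) (fun σ => sg (σ y)) =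
      Real.tanh K * gav J 0 (fun σ => sg (σ u) * sg (σ y)) := by
  unfold gav
  have hnum : ∑ σ : V → Bool, sg (σ y) * Real.exp (gE J (Pi.single u K) σ) =
      Real.sinh K * ∑ σ : V → Bool, sg (σ u) * sg (σ y) * Real.exp (gE J 0 σ) := by
    have h1 : ∀ σ : V → Bool, sg (σ y) * Real.exp (gE J (Pi.single u K) σ) =
        Real.cosh K * (sg (σ y) * Real.exp (gE J 0 σ)) +
          Real.sinh K * (sg (σ u) * sg (σ y) * Real.exp (gE J 0 σ)) := by
      intro σ
      rw [leaf_gE_single, Real.exp_add, leaf_exp]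
      ring
    simp only [h1]
    rw [Finset.sum_add_distrib, ← Finset.mul_sum, ← Finset.mul_sum, leaf_sum_zero]
    ring
  have hden : ∑ σ : V → Bool, Real.exp (gE J (Pi.single u K) σ) =
      Real.cosh K * ∑ σ : V → Bool, Real.exp (gE J 0 σ) := by
    have h1 : ∀ σ : V → Bool, Real.exp (gE J (Pi.single u K) σ) =
        Real.cosh K * Real.exp (gE J 0 σ) + Real.sinh K * (sg (σ u) * Real.exp (gE J 0 σ)) := by
      intro σ
      rw [leaf_gE_single, Real.exp_add, leaf_exp]
      ring
    simp only [h1]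
    rw [Finset.sum_add_distrib, ← Finset.mul_sum, ← Finset.mul_sum, leaf_sum_zero]
    ring
  rw [hnum, hden, Real.tanh_eq_sinh_div_cosh, div_mul_div_comm]

end

theorem pf_LEAF (h1 : S_E1) : S_LEAF := by
  intro V _ _ J h K u y hJ hK
  have h2 := h1 V J h (Pi.single u K) y hJ (by
    intro v
    by_cases hv : v = u
    · rw [hv, Pi.single_eq_same]
      exact hK
    · rw [Pi.single_eq_of_ne hv])
  rwa [leaf_gav] at h2

end Pool.Agent.Helper27.Isg
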