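import Pool.Agent.Helper70.Isg.Goals2

/-!
# MP_600500_pr: the packet P2 (the law of the inputs)
-/

open MeasureTheory Filter Topology

noncomputable section

namespace Pool.Agent.Helper27.Isg

open Pool.Agent.Helper70.Isg

theorem p2_lam_nonneg (k : ℕ) : 0 ≤ lam k := by unfold lam; positivity

theorem p2_lam_hasSum (n : ℕ) : HasSum (fun k => lam (k + n)) ((2 / 3 : ℝ) ^ n) := by
  have h := (hasSum_geometric_of_lt_one (r := (2 / 3 : ℝ)) (by norm_num) (by norm_num)).mul_left
    ((1 / 3 : ℝ) * (2 / 3) ^ n)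
  have e1 : (fun k => (1 / 3 : ℝ) * (2 / 3) ^ n * (2 / 3) ^ k) = fun k => lam (k + n) := by
    funext k
    unfold lam
    rw [pow_add]
    ring
  have e2 : (1 / 3 : ℝ) * (2 / 3) ^ n * (1 - 2 / 3)⁻¹ = (2 / 3) ^ n := by
    norm_num
    ring
  rw [e1, e2] at h
  exact h

theorem p2_geo_apply (s : Set ℕ) : geo s = ∑' k, ENNReal.ofReal (lam k) * s.indicator 1 k := by
  have hs : MeasurableSet s := MeasurableSet.of_discrete
  unfold geo
  rw [Measure.sum_apply _ hs]
  simp only [Measure.smul_apply, smul_eq_mul, Measure.dirac_apply' _ hs]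

theorem p2_geo_ge (n : ℕ) : geo {k | n ≤ k} = ENNReal.ofReal ((2 / 3) ^ n) := by
  rw [p2_geo_apply, ← (p2_lam_hasSum n).tsum_eq,
    ENNReal.ofReal_tsum_of_nonneg (fun k => p2_lam_nonneg _) (p2_lam_hasSum n).summable]
  have hinj : Function.Injective (fun k : ℕ => k + n) := add_left_injective n
  rw [← hinj.tsum_eq (f := fun k => ENNReal.ofReal (lam k) * ({k | n ≤ k} : Set ℕ).indicator 1 k)]
  · apply tsum_congr
    intro k
    have hk : k + n ∈ ({k | n ≤ k} : Set ℕ) := by
      change n ≤ k + n
      omega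
    simp only [Set.indicator_of_mem hk, Pi.one_apply, mul_one]
  · intro k hk
    have hk2 : n ≤ k := by
      by_contra hcon
      apply hk
      have : k ∉ ({k | n ≤ k} : Set ℕ) := hcon
      simp only [Set.indicator_of_notMem this, mul_zero]
    exact ⟨k - n, Nat.sub_add_cancel hk2⟩

theorem p2_geo_single (k : ℕ) : geo {k} = ENNReal.ofReal (lam k) := by
  rw [p2_geo_apply, tsum_eq_single k]
  · simp
  · intro j hj
    have : j ∉ ({k} : Set ℕ) := hj
    rw [Set.indicator_of_notMem this, mul_zero]

theorem pf_P2 : S_P2 := by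
  intro d L hL
  have h1 : IsProbabilityMeasure (unifL L) := by
    refine ⟨?_⟩
    unfold unifL
    rw [Measure.smul_apply, Measure.count_apply MeasurableSet.univ, Set.encard_univ]
    simp only [ENat.card_eq_coe_fintype_card, Fintype.card_fin, smul_eq_mul]
    apply ENNReal.inv_mul_cancel
    · simp only [ENat.toENNReal_coe, ne_eq, Nat.cast_eq_zero]
      omega
    · simp
  have h2 : IsProbabilityMeasure geo := by
    refine ⟨?_⟩
    have h := p2_geo_ge 0
    have e : ({k | 0 ≤ k} : Set ℕ) = Set.univ := by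
      ext k
      simp
    rw [e] at h
    rw [h]
    simp
  refine ⟨h1, h2, p2_geo_single, p2_geo_ge, ?_, ?_⟩
  · unfold P2
    infer_instance
  · intro F B
    have h3 := Measure.infinitePi_pi (μ := fun _ : Site d => (unifL L).prod geo) (s := F) (t := B)
      (fun i _ => MeasurableSet.of_discrete)
    unfold P2
    rw [← h3]
    congr 1

end Pool.Agent.Helper27.Isg
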